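import Pool.Agent.H121.SH.Iface
import Pool.Agent.H155.GA.RuA
import Pool.Agent.H870.GA.RuB
import Pool.Agent.H738.GA.Meas
import Pool.Agent.H100.GA.Opb
import Pool.Agent.H399.GA.Site
import Pool.Agent.H253.GA.WienR
import Pool.Agent.H717.Z987.WienB

/-! Proof of `S_simU` (project SH of helper121): simplicity of the eigenvalues for unbounded potentials;
port of `Pool/Agent/H962/ME/Simple.lean` (helper962), written by helper740. -/

set_option autoImplicit false

open scoped BigOperators InnerProductSpace Topology ENNReal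
open Filter MeasureTheory

namespace Pool.Agent.H740.SH

open Pool.Agent.Y662.TR (LL dv dv_self dv_ne inner_dv ll_ext)
open Pool.Agent.TH369.MU (ep zk)
open Pool.Agent.H987.Z (Rs)
open Pool.Agent.H121.Z987
open Pool.Agent.H121.GA (GU RU Rf SpR)
open Pool.Agent.H717.Z987

variable {ι : Type}

theorem zk_imv (E : ℝ) (k : ℕ) : (zk E k).im = ep k := Pool.Agent.TH369.MU.QB.zk_im E k

theorem zk_nev (E : ℝ) (k : ℕ) : (zk E k).im ≠ 0 := by
  rw [zk_imv]
  exact (ep_pos' k).ne'

theorem rf (T : LL ι →L[ℂ] LL ι) (hT : Rs T) (V : ι → ℝ) : Rf (RU T V) :=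
  Pool.Agent.H870.GA.ruB Pool.Agent.H155.GA.ruA ι T hT V

/-- the resolvent of an eigenvector -/
theorem ru_eig (T : LL ι →L[ℂ] LL ι) (hT : Rs T) (V : ι → ℝ) (z : ℂ) (hz : z.im ≠ 0) (E : ℝ)
    (ψ : LL ι) (h : ∀ p, T ψ p + ((V p : ℝ) : ℂ) * ψ p = (E : ℂ) * ψ p) :
    ((E : ℂ) - z) • RU T V z ψ = ψ := by
  have h1 := (Pool.Agent.H155.GA.ruA ι T hT V z hz).2.2.2 (((E : ℂ) - z) • ψ) ψ (fun x => by
    change _ = ((E : ℂ) - z) * ψ x
    linear_combination h x)
  rw [map_smul] at h1
  exact h1.symm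

/-- spectral measures: Borel transform and eigenvectors -/
theorem spec (T : LL ι →L[ℂ] LL ι) (hT : Rs T) (V : ι → ℝ) (y : ι) :
    ∃ m : Measure ℝ, IsFiniteMeasure m ∧
      (∀ (k : ℕ) (E : ℝ), Fm m (ep k) E = GU T V (zk E k) y y) ∧
      (∀ (E : ℝ) (ψ : LL ι), (∀ p, T ψ p + ((V p : ℝ) : ℂ) * ψ p = (E : ℂ) * ψ p) → ψ y ≠ 0 →
        m {E} ≠ 0) := by
  have hR := rf T hT V
  obtain ⟨m, hm, -⟩ := hR.sp (dv y)
  have hf := hm.1
  have hF : ∀ (k : ℕ) (E : ℝ), Fm m (ep k) E = GU T V (zk E k) y y := by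
    intro k E
    have h := Pool.Agent.H253.GA.spm_Fm (R := RU T V) (dv y) m hm E k
    rw [inner_dv] at h
    exact h.symm
  refine ⟨m, hf, hF, fun E ψ hψ hy hm0 => ?_⟩
  have h1 := Fm_atom m E
  have h0 : m.real {E} = 0 := by
    rw [measureReal_def, hm0]
    simp
  rw [h0] at h1
  -- the squares of the norms
  have h2 : ∀ k, ‖-(Complex.I * (ep k : ℂ)) • RU T V (zk E k) (dv y)‖ ^ 2 =
      (-(Complex.I * (ep k : ℂ)) * Fm m (ep k) E).re := by
    intro k
    have h3 := Pool.Agent.H253.GA.im_nsq hR (zk E k) (zk_nev E k) (dv y)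
    rw [inner_dv, zk_imv] at h3
    have h4 : (RU T V (zk E k) (dv y)) y = Fm m (ep k) E := by
      rw [hF]
      rfl
    rw [h4] at h3
    rw [norm_smul, norm_neg, norm_mul, Complex.norm_I, one_mul, Complex.norm_real,
      Real.norm_of_nonneg (ep_pos' k).le, mul_pow]
    have e : (-(Complex.I * (ep k : ℂ)) * Fm m (ep k) E).re = ep k * (Fm m (ep k) E).im := by
      simp [Complex.mul_re]
    rw [e, h3]
    ring
  have h3 : Tendsto (fun k => ‖-(Complex.I * (ep k : ℂ)) • RU T V (zk E k) (dv y)‖ ^ 2) atTop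
      (𝓝 0) := by
    have h4 := (Complex.continuous_re.tendsto _).comp h1
    simp only [Complex.ofReal_re] at h4
    exact h4.congr fun k => (h2 k).symm
  have h4 : Tendsto (fun k => ‖-(Complex.I * (ep k : ℂ)) • RU T V (zk E k) (dv y)‖) atTop
      (𝓝 0) := by
    have h5 := (Real.continuous_sqrt.tendsto 0).comp h3
    rw [Real.sqrt_zero] at h5
    refine h5.congr fun k => ?_
    change √(‖_‖ ^ 2) = _
    exact Real.sqrt_sq (norm_nonneg _)
  -- the inner products with the eigenvector
  have h5 : ∀ k, ⟪ψ, -(Complex.I * (ep k : ℂ)) • RU T V (zk E k) (dv y)⟫_ℂ = ⟪ψ, dv y⟫_ℂ := by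
    intro k
    have hz' : (starRingEnd ℂ (zk E k)).im ≠ 0 := by
      rw [Complex.conj_im]
      exact neg_ne_zero.2 (zk_nev E k)
    have h6 := ru_eig T hT V (starRingEnd ℂ (zk E k)) hz' E ψ hψ
    have h7 := hR.ad (starRingEnd ℂ (zk E k)) hz' ψ (dv y)
    rw [Complex.conj_conj] at h7
    have h8 : (E : ℂ) - starRingEnd ℂ (zk E k) = Complex.I * (ep k : ℂ) := by
      unfold zk
      rw [map_add, map_mul, Complex.conj_ofReal, Complex.conj_ofReal, Complex.conj_I]
      ring
    rw [h8] at h6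
    rw [inner_smul_right, ← h7]
    conv_rhs => rw [← h6, inner_smul_left]
    rw [map_mul, Complex.conj_I, Complex.conj_ofReal]
    ring
  have h6 : ∀ k, ‖⟪ψ, dv y⟫_ℂ‖ ≤ ‖ψ‖ *
      ‖-(Complex.I * (ep k : ℂ)) • RU T V (zk E k) (dv y)‖ := by
    intro k
    rw [← h5 k]
    exact norm_inner_le_norm _ _
  have h7 := h4.const_mul ‖ψ‖
  rw [mul_zero] at h7
  have h8 := ge_of_tendsto' h7 h6
  have h9 : ⟪ψ, dv y⟫_ℂ = 0 := norm_eq_zero.1 (le_antisymm h8 (norm_nonneg _))
  rw [← inner_conj_symm, inner_dv, map_eq_zero] at h9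
  exact hy h9

open Classical in
/-- a common atom of the spectral measures of one site for two values of the potential there -/
theorem one_atom (T : LL ι →L[ℂ] LL ι) (hT : Rs T) (lam : ℝ) (ω : ι → ℝ) (y : ι) (v v' : ℝ)
    (hc : lam * (v' - v) ≠ 0)
    (m m' : Measure ℝ) [IsFiniteMeasure m] [IsFiniteMeasure m']
    (hm : ∀ (k : ℕ) (E : ℝ), Fm m (ep k) E =
      GU T (fun p => lam * Function.update ω y v p) (zk E k) y y)
    (hm' : ∀ (k : ℕ) (E : ℝ), Fm m' (ep k) E =
      GU T (fun p => lam * Function.update ω y v' p) (zk E k) y y) (t : ℝ) :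
    m.real {t} = 0 ∨ m'.real {t} = 0 := by
  obtain ⟨c, hcd⟩ : ∃ c : ℂ, c = ((lam * (v' - v) : ℝ) : ℂ) := ⟨_, rfl⟩
  have hc0 : c ≠ 0 := by
    rw [hcd, Ne, Complex.ofReal_eq_zero]
    exact hc
  have h1 := Fm_atom m t
  have h2 := Fm_atom m' t
  obtain ⟨s1, s2, -⟩ := Pool.Agent.H399.GA.site Pool.Agent.H155.GA.ruA ι T hT
  have key : ∀ k, Fm m' (ep k) t + c * (Fm m' (ep k) t * Fm m (ep k) t) = Fm m (ep k) t := by
    intro k
    have hz : 0 < (zk t k).im := by
      rw [zk_imv]
      exact ep_pos' k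
    rw [hm, hm']
    have p1 := (s1 (fun p => lam * Function.update ω y v p) (zk t k) y y hz).1
    have p2 := (s1 (fun p => lam * Function.update ω y v' p) (zk t k) y y hz).1
    rw [s2 lam ω (zk t k) y y v hz] at p1 ⊢
    rw [s2 lam ω (zk t k) y y v' hz] at p2 ⊢
    generalize GU T (fun p => lam * Function.update ω y 0 p) (zk t k) y y = g at p1 p2 ⊢
    have n1 : 1 + (lam : ℂ) * (v : ℂ) * g ≠ 0 := by
      intro h
      rw [h, div_zero] at p1
      simp at p1
    have n2 : 1 + (lam : ℂ) * (v' : ℂ) * g ≠ 0 := by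
      intro h
      rw [h, div_zero] at p2
      simp at p2
    obtain ⟨d1, hd1⟩ : ∃ d1 : ℂ, d1 = 1 + (lam : ℂ) * (v : ℂ) * g := ⟨_, rfl⟩
    obtain ⟨d2, hd2⟩ : ∃ d2 : ℂ, d2 = 1 + (lam : ℂ) * (v' : ℂ) * g := ⟨_, rfl⟩
    have hcg : c * g = d2 - d1 := by
      rw [hcd, hd1, hd2]
      push_cast
      ring
    rw [← hd1] at n1 ⊢
    rw [← hd2] at n2 ⊢
    have e1 : g / d2 + c * (g / d2 * (g / d1)) = g * (d1 + c * g) / (d1 * d2) := by
      field_simp
    rw [e1, hcg]
    field_simp
    ring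
  have h3 : ∀ k, -(Complex.I * (ep k : ℂ)) * (-(Complex.I * (ep k : ℂ)) * Fm m' (ep k) t) +
      c * ((-(Complex.I * (ep k : ℂ)) * Fm m' (ep k) t) *
        (-(Complex.I * (ep k : ℂ)) * Fm m (ep k) t)) =
      -(Complex.I * (ep k : ℂ)) * (-(Complex.I * (ep k : ℂ)) * Fm m (ep k) t) := by
    intro k
    linear_combination (Complex.I * (ep k : ℂ)) ^ 2 * key k
  have h5 : Tendsto (fun k => -(Complex.I * (ep k : ℂ))) atTop (𝓝 0) := by
    have h4 : Tendsto (fun k => (ep k : ℂ)) atTop (𝓝 ((0 : ℝ) : ℂ)) :=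
      (Complex.continuous_ofReal.tendsto _).comp ep_lim
    have := (h4.const_mul Complex.I).neg
    simpa using this
  have l1 := (h5.mul h2).add ((h2.mul h1).const_mul c)
  have l2 := h5.mul h1
  have l3 := tendsto_nhds_unique (l1.congr h3) l2
  rw [zero_mul, zero_mul, zero_add] at l3
  rcases mul_eq_zero.1 l3 with h6 | h6
  · exact absurd h6 hc0
  · rcases mul_eq_zero.1 h6 with h7 | h7
    · exact Or.inr (by exact_mod_cast h7)
    · exact Or.inl (by exact_mod_cast h7)

open Classical in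
/-- almost surely no common atom -/
theorem no_common [Countable ι] (T : LL ι →L[ℂ] LL ι) (hT : Rs T) (lam : ℝ) (hlam : 0 < lam)
    (μ : Measure ℝ) [IsProbabilityMeasure μ] (hμ0 : ∀ v : ℝ, μ {v} = 0)
    (x y : ι) :
    ∀ᵐ ω ∂(Measure.infinitePi fun _ : ι => μ), ∀ (t : ℝ) (u w : LL ι),
      (∀ p, T u p + ((lam * ω p : ℝ) : ℂ) * u p = (t : ℂ) * u p) → u y ≠ 0 →
      (∀ p, T w p + ((lam * Function.update ω y 0 p : ℝ) : ℂ) * w p = (t : ℂ) * w p) →
      w x = 0 := by
  choose M hMf hMF hMe using fun (ω : ι → ℝ) (y : ι) => spec T hT (fun p => lam * ω p) y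
  obtain ⟨N, hN⟩ : ∃ N : (ι → ℝ) → Measure ℝ, N = fun ω => M (Function.update ω y 0) x := ⟨_, rfl⟩
  have hNf : ∀ ω, IsFiniteMeasure (N ω) := fun ω => by rw [hN]; exact hMf _ _
  have hNF : ∀ ω (k : ℕ) (E : ℝ), Fm (N ω) (ep k) E =
      GU T (fun p => lam * Function.update ω y 0 p) (zk E k) x x := fun ω k E => by
    rw [hN]; exact hMF _ _ k E
  obtain ⟨D, hD⟩ : ∃ D : (ι → ℝ) → ℂ,
      D = fun ω => ∫ p : ℝ × ℝ, kl p.1 p.2 ∂((M ω y).prod (N ω)) := ⟨_, rfl⟩
  -- measurability
  have hupd : Measurable fun ω : ι → ℝ => Function.update ω y (0 : ℝ) :=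
    (update_meas y).comp (measurable_id.prodMk measurable_const)
  have hGm := (Pool.Agent.H738.GA.mU Pool.Agent.H155.GA.ruA Pool.Agent.H100.GA.opb).1 ι T hT lam
  have hJm : ∀ k, Measurable fun ω => J (M ω y) (N ω) k := by
    intro k
    have h1 : (fun ω => J (M ω y) (N ω) k) = fun ω => ∫ E, (ep k : ℂ) *
        (GU T (fun p => lam * ω p) (zk E k) y y * (starRingEnd ℂ)
          (GU T (fun p => lam * Function.update ω y 0 p) (zk E k) x x)) ∂Q := by
      funext ω
      unfold J
      simp only [hMF, hNF]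
    rw [h1]
    have g1 : Measurable fun p : (ι → ℝ) × ℝ => GU T (fun q => lam * p.1 q) (zk p.2 k) y y := by
      have h2 : Measurable fun p : (ι → ℝ) × ℝ => (p.2, p.1) :=
        measurable_snd.prodMk measurable_fst
      have h3 := ((hGm y y).1 k).comp h2
      simpa only [Function.comp_def, Function.uncurry_apply_pair] using h3
    have g2 : Measurable fun p : (ι → ℝ) × ℝ =>
        GU T (fun q => lam * Function.update p.1 y 0 q) (zk p.2 k) x x := by
      have h2 : Measurable fun p : (ι → ℝ) × ℝ => (p.2, Function.update p.1 y (0 : ℝ)) :=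
        measurable_snd.prodMk (hupd.comp measurable_fst)
      have h3 := ((hGm x x).1 k).comp h2
      simpa only [Function.comp_def, Function.uncurry_apply_pair] using h3
    have g3 : Measurable fun p : (ι → ℝ) × ℝ => (ep k : ℂ) *
        (GU T (fun q => lam * p.1 q) (zk p.2 k) y y * (starRingEnd ℂ)
          (GU T (fun q => lam * Function.update p.1 y 0 q) (zk p.2 k) x x)) :=
      (g1.mul (Complex.continuous_conj.measurable.comp g2)).const_mul _
    exact (g3.stronglyMeasurable.integral_prod_right' (ν := Q)).measurable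
  have hlim : ∀ ω, Tendsto (fun k => J (M ω y) (N ω) k) atTop (𝓝 (D ω)) := by
    intro ω
    have := hMf ω y
    have := hNf ω
    rw [hD]
    exact J_lim0 (M ω y) (N ω)
  have hDm : Measurable D := measurable_of_tendsto_metrizable hJm (tendsto_pi_nhds.2 hlim)
  -- the value
  have hval : ∀ ω, D ω = ((Real.pi * ∑' t : {t : ℝ | N ω {t} ≠ 0},
      wt t * ((M ω y).real {(t : ℝ)} * (N ω).real {(t : ℝ)}) : ℝ) : ℂ) := by
    intro ω
    have := hMf ω y
    have := hNf ω
    rw [hD]
    exact kl_sum (M ω y) (N ω) _ (fin_atoms (N ω)) (fun t ht => by simpa using ht)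
  -- resampling
  have hz : ∀ ω, ∫⁻ v, ENNReal.ofReal (D (Function.update ω y v)).re ∂μ = 0 := by
    intro ω
    have hN0 : ∀ v, N (Function.update ω y v) = N ω := by
      intro v
      rw [hN]
      simp only [Function.update_idem]
    have hSc : {t : ℝ | N ω {t} ≠ 0}.Countable := by
      have := hNf ω
      exact fin_atoms (N ω)
    have hex : ∀ t : ℝ,
        Set.Subsingleton {v : ℝ | M (Function.update ω y v) y {t} ≠ 0} := by
      intro t v hv1 v' hv1'
      by_contra hne
      have i1 := hMf (Function.update ω y v) y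
      have i2 := hMf (Function.update ω y v') y
      have h := one_atom T hT lam ω y v v'
        (mul_ne_zero hlam.ne' (sub_ne_zero.2 fun h => hne h.symm))
        (M (Function.update ω y v) y) (M (Function.update ω y v') y)
        (hMF _ _) (hMF _ _) t
      rcases h with h | h
      · rw [measureReal_def, ENNReal.toReal_eq_zero_iff] at h
        rcases h with h | h
        · exact hv1 h
        · exact measure_ne_top _ _ h
      · rw [measureReal_def, ENNReal.toReal_eq_zero_iff] at h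
        rcases h with h | h
        · exact hv1' h
        · exact measure_ne_top _ _ h
    have hnull : μ (⋃ t ∈ {t : ℝ | N ω {t} ≠ 0},
        {v : ℝ | M (Function.update ω y v) y {t} ≠ 0}) = 0 := by
      rw [measure_biUnion_null_iff hSc]
      intro t _
      rcases (hex t).eq_empty_or_singleton with h | ⟨v, h⟩
      · rw [h, measure_empty]
      · rw [h, hμ0]
    have hae : (fun v => ENNReal.ofReal (D (Function.update ω y v)).re) =ᵐ[μ] fun _ => 0 := by
      filter_upwards [compl_mem_ae_iff.2 hnull] with v hv2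
      rw [hval, Complex.ofReal_re]
      have h0 : ∀ t : {t : ℝ | N (Function.update ω y v) {t} ≠ 0},
          wt t * ((M (Function.update ω y v) y).real {(t : ℝ)} *
            (N (Function.update ω y v)).real {(t : ℝ)}) = 0 := by
        rintro ⟨t, ht⟩
        have ht' : N ω {t} ≠ 0 := by
          have := hN0 v
          rw [← this]
          exact ht
        have hM0 : M (Function.update ω y v) y {t} = 0 := by
          by_contra hne
          apply hv2
          simp only [Set.mem_iUnion]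
          exact ⟨t, ht', hne⟩
        simp only
        rw [measureReal_def, hM0]
        simp
      rw [tsum_congr h0]
      simp
    rw [lintegral_congr_ae hae]
    simp
  have hDm2 : Measurable fun ω => ENNReal.ofReal (D ω).re :=
    (Complex.measurable_re.comp hDm).ennreal_ofReal
  have h2 := lint_resample μ y (fun ω => ENNReal.ofReal (D ω).re) hDm2
  simp only [hz, lintegral_zero] at h2
  rw [lintegral_eq_zero_iff hDm2] at h2
  filter_upwards [h2] with ω hω t u w hu huy hw
  have i1 := hMf ω y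
  have i2 := hNf ω
  by_contra hwx
  have a1 : M ω y {t} ≠ 0 := hMe ω y t u hu huy
  have a2 : N ω {t} ≠ 0 := by
    rw [hN]
    exact hMe _ x t w hw hwx
  have h3 : (D ω).re ≤ 0 := by
    simpa using hω
  rw [hval, Complex.ofReal_re] at h3
  have hs := atoms_summable (M ω y) (N ω) {t : ℝ | N ω {t} ≠ 0} (fin_atoms (N ω))
  have h4 : 0 < ∑' t : {t : ℝ | N ω {t} ≠ 0},
      wt t * ((M ω y).real {(t : ℝ)} * (N ω).real {(t : ℝ)}) := by
    refine hs.tsum_pos (fun t => ?_) ⟨t, a2⟩ ?_
    · exact mul_nonneg (wt_pos _).le (mul_nonneg measureReal_nonneg measureReal_nonneg)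
    · refine mul_pos (wt_pos _) (mul_pos ?_ ?_)
      · exact ENNReal.toReal_pos a1 (measure_ne_top _ _)
      · exact ENNReal.toReal_pos a2 (measure_ne_top _ _)
  have h5 := mul_pos Real.pi_pos h4
  linarith

open Classical in
/-- simplicity of the eigenvalues, unbounded potentials -/
theorem simU : Pool.Agent.H121.SH.S_simU := by
  intro ι _ T hT lam hlam μ _ hμ0
  have h1 : ∀ᵐ ω ∂(Measure.infinitePi fun _ : ι => μ), ∀ (x y : ι) (t : ℝ) (u w : LL ι),
      (∀ p, T u p + ((lam * ω p : ℝ) : ℂ) * u p = (t : ℂ) * u p) → u y ≠ 0 →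
      (∀ p, T w p + ((lam * Function.update ω y 0 p : ℝ) : ℂ) * w p = (t : ℂ) * w p) →
      w x = 0 := by
    rw [ae_all_iff]
    intro x
    rw [ae_all_iff]
    intro y
    exact no_common T hT lam hlam μ hμ0 x y
  filter_upwards [h1] with ω hω t u v hu hv hu0
  obtain ⟨y, hy⟩ : ∃ y, u y ≠ 0 := by
    by_contra hcon
    push Not at hcon
    exact hu0 (ll_ext hcon)
  refine ⟨v y / u y, ?_⟩
  -- `w = v y • u - u y • v`
  have hwy : (v y • u - u y • v : LL ι) y = 0 := by
    change v y * u y - u y * v y = 0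
    ring
  have hwH : ∀ p, T (v y • u - u y • v) p + ((lam * Function.update ω y 0 p : ℝ) : ℂ) *
      (v y • u - u y • v : LL ι) p = (t : ℂ) * (v y • u - u y • v : LL ι) p := by
    intro p
    have e1 : T (v y • u - u y • v) p = v y * T u p - u y * T v p := by
      rw [map_sub, map_smul, map_smul]
      rfl
    by_cases h : p = y
    · subst h
      rw [hwy, e1]
      have h2 := hu p
      have h3 := hv p
      linear_combination v p * h2 - u p * h3
    · rw [Function.update_of_ne h, e1]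
      change v y * T u p - u y * T v p + ((lam * ω p : ℝ) : ℂ) * (v y * u p - u y * v p) =
        (t : ℂ) * (v y * u p - u y * v p)
      linear_combination v y * hu p - u y * hv p
  have hw0 : (v y • u - u y • v : LL ι) = 0 := by
    apply ll_ext
    intro x
    exact hω x y t u _ hu hy hwH
  rw [sub_eq_zero] at hw0
  rw [div_eq_inv_mul, mul_smul, hw0, smul_smul, inv_mul_cancel₀ hy, one_smul]

end Pool.Agent.H740.SH
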