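import Pool.Agent.H121.SH.IfM
import Pool.Agent.H686.SH.ParG

set_option autoImplicit false

open Pool.Agent.H121.SH Pool.Agent.H686.SH.ParG

namespace Pool.Agent.H740.SH

open Filter

theorem parH : S_parH := by
  intro D ε dl hD hε hdl
  -- τ
  set E : ℝ := 1 + ε / 2 with hE
  obtain ⟨τ, hτ0, hτ1, hτE⟩ : ∃ τ : ℝ, 0 < τ ∧ τ ≤ 1 / 2 ∧ Real.exp τ ≤ E := by
    refine ⟨min (1 / 2) (Real.log E), ?_, min_le_left _ _, ?_⟩
    · exact lt_min (by norm_num) (Real.log_pos (by rw [hE]; linarith))
    · calc Real.exp (min (1 / 2) (Real.log E)) ≤ Real.exp (Real.log E) :=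
          Real.exp_le_exp.2 (min_le_right _ _)
        _ = E := Real.exp_log (by rw [hE]; linarith)
  have hE1 : 1 < E := by rw [hE]; linarith
  set L : ℝ := 1 + E / τ + E with hL
  have hEτ : 0 < E / τ := by positivity
  have hL1 : 1 ≤ L := by rw [hL]; linarith
  set q0 : ℝ := E / (1 + ε) with hq0
  have hq0p : 0 < q0 := by positivity
  have hq01 : q0 < 1 := by
    rw [hq0, div_lt_one (by linarith), hE]; linarith
  set ε1 : ℝ := (1 - q0) / 4 with hε1
  have hε10 : 0 < ε1 := by rw [hε1]; linarith
  have hε11 : ε1 ≤ 1 := by rw [hε1]; linarith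
  set M1 : ℝ := L / ε1 with hM1
  have hM11 : 1 ≤ M1 := by
    rw [hM1, le_div_iff₀ hε10]; linarith
  set Δ : ℝ := 1 + 1 / dl with hΔ
  have hΔp : 0 < Δ := by positivity
  set M : ℝ := 2 * D + E + 2 * L * (2 * (4 * D + 1) * (4 * D + 1 / τ) + 2 * D * L) +
    2 * M1 * E * Δ with hM
  have hMp : 0 < M := by positivity
  set δ : ℝ := (1 - q0) / (4 * (1 + M)) with hδdef
  have hδ : 0 < δ := by
    rw [hδdef]; apply div_pos <;> linarith
  have hδ1 : δ ≤ 1 := by
    rw [hδdef, div_le_one (by linarith)]; linarith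
  have hδM : (1 + M) * δ = (1 - q0) / 4 := by
    rw [hδdef]; field_simp
  obtain ⟨K0, hK03, hK0⟩ := ev ((1 + ε) * (4 * D)) δ (by positivity) hδ
  set q1 : ℝ := (1 + q0) / 2 with hq1
  set q : ℝ := (1 + q1) / 2 with hq
  have hq1p : 0 < q1 := by rw [hq1]; linarith
  have hq1q : q1 < q := by rw [hq, hq1]; linarith
  have hq1' : q < 1 := by rw [hq, hq1]; linarith
  refine ⟨K0, L, M1, Real.log (q / q1) / 2, q, by omega, hL1, hM11, ?_, hq1', ?_⟩
  · apply div_pos _ (by norm_num)
    exact Real.log_pos ((one_lt_div hq1p).2 hq1q)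
  intro K hK lam hlam
  obtain ⟨h1, h2⟩ := hK0 K hK
  have hK3 : (3 : ℝ) ≤ K := by exact_mod_cast hK03.trans hK
  obtain ⟨g1, g2, g3⟩ := bd D ε δ K lam hD hε hδ hδ1 hK3 h1 h2 hlam
  have hlam0 : 0 < lam := (Real.exp_pos 1).trans_le g1
  have hl : 1 ≤ Real.log lam := by
    rw [Real.le_log_iff_exp_le hlam0]; exact g1
  have he1 : (1 : ℝ) ≤ Real.exp 1 := by
    have := Real.add_one_le_exp (1 : ℝ); linarith
  obtain ⟨c1, c2, c3⟩ := cvals D lam τ g1 hτ0
  -- the term of the off resonant sites
  have hhalf : τ / Real.log lam ≤ 1 / 2 := by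
    calc τ / Real.log lam ≤ τ / 1 := div_le_div_of_nonneg_left hτ0.le one_pos hl
      _ ≤ 1 / 2 := by rw [div_one]; exact hτ1
  have hhpos : 0 < τ / Real.log lam := by positivity
  have hoff : (dl * lam) ^ (-(1 - τ / Real.log lam)) ≤ Δ * (Real.exp τ / lam) := by
    have e0 : lam ^ (τ / Real.log lam) = Real.exp τ := by
      rw [Real.rpow_def_of_pos hlam0]; congr 1; field_simp
    have e1 : lam ^ (-(1 - τ / Real.log lam)) = Real.exp τ / lam := by
      rw [neg_sub, Real.rpow_sub_one hlam0.ne', e0]
    have e2 : dl ^ (-(1 - τ / Real.log lam)) ≤ Δ := by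
      rcases le_total 1 dl with hd | hd
      · have : dl ^ (-(1 - τ / Real.log lam)) ≤ 1 :=
          Real.rpow_le_one_of_one_le_of_nonpos hd (by linarith)
        have h3 : 0 < 1 / dl := by positivity
        rw [hΔ]; linarith
      · have : dl ^ (-(1 - τ / Real.log lam)) ≤ dl ^ (-1 : ℝ) :=
          Real.rpow_le_rpow_of_exponent_ge hdl hd (by linarith)
        rw [Real.rpow_neg_one, inv_eq_one_div] at this
        rw [hΔ]; linarith
    rw [Real.mul_rpow hdl.le hlam0.le, e1]
    exact mul_le_mul_of_nonneg_right e2 (by positivity)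
  have hoff0 : 0 ≤ (dl * lam) ^ (-(1 - τ / Real.log lam)) := Real.rpow_nonneg (by positivity) _
  -- elementary bounds
  have hT1 : 1 + τ ≤ Real.exp τ := by linarith [Real.add_one_le_exp τ]
  have hTn0 : 0 < Real.exp (-τ) := Real.exp_pos _
  have hTn1 : Real.exp (-τ) ≤ 1 := Real.exp_le_one_iff.2 (by linarith)
  have hS2 : Real.exp τ - Real.exp (-τ) ≤ 2 * E * τ := by
    have e1 : Real.exp (-τ) = Real.exp τ * Real.exp (-(2 * τ)) := by
      rw [← Real.exp_add]; congr 1; ring
    have e2 : 1 - 2 * τ ≤ Real.exp (-(2 * τ)) := by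
      linarith [Real.add_one_le_exp (-(2 * τ))]
    have e3 : Real.exp τ * (1 - 2 * τ) ≤ Real.exp (-τ) := by
      rw [e1]; exact mul_le_mul_of_nonneg_left e2 (Real.exp_pos τ).le
    have e4 : Real.exp τ * τ ≤ E * τ := mul_le_mul_of_nonneg_right hτE hτ0.le
    linarith
  set T : ℝ := Real.exp τ with hTdef
  set T' : ℝ := Real.exp (-τ) with hT'def
  set S : ℝ := (T - T') / τ with hSdef
  have hT0 : 0 < T := Real.exp_pos τ
  have hS1 : 1 ≤ S := by
    rw [hSdef, le_div_iff₀ hτ0]; linarith
  have hS3 : S ≤ 2 * E := by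
    rw [hSdef, div_le_iff₀ hτ0]; exact hS2
  set a : ℝ := K * Real.log lam / lam with ha
  set b : ℝ := K / lam with hb
  have hK0' : (0 : ℝ) < K := by linarith
  have ha0 : 0 < a := by rw [ha]; positivity
  have hb0 : 0 < b := by rw [hb]; positivity
  have ha1 : 4 * D * a * E ≤ q0 + δ := by
    calc 4 * D * a * E ≤ (1 + δ) / (1 + ε) * E := mul_le_mul_of_nonneg_right g3 (by linarith)
      _ = q0 + q0 * δ := by rw [hq0]; field_simp
      _ ≤ q0 + δ := by linarith [mul_le_of_le_one_left hδ.le hq01.le]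
  have ha2 : 2 * D * a ≤ 1 := by
    have : (1 + δ) / (1 + ε) ≤ 2 := by
      rw [div_le_iff₀ (by linarith)]; linarith
    linarith
  have hb1 : b ≤ 1 := by linarith
  have hDa0 : 0 < D * a := by positivity
  have hcC : cC D lam (τ / Real.log lam) = (2 * D * a * (T / τ) + T * b) / K := by
    rw [c1, ha, hb]; field_simp
  have hcC0 : 0 < cC D lam (τ / Real.log lam) := by rw [hcC]; positivity
  have hKcC : K * cC D lam (τ / Real.log lam) ≤ L := by
    rw [hcC, mul_div_cancel₀ _ hK0'.ne']
    have e1 : 2 * D * a * (T / τ) ≤ 1 * (E / τ) := by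
      apply mul_le_mul ha2 (div_le_div_of_nonneg_right hτE hτ0.le) (by positivity) (by norm_num)
    have e2 : T * b ≤ E * 1 := mul_le_mul hτE hb1 hb0.le (by linarith)
    rw [hL]; linarith
  have hcCL : cC D lam (τ / Real.log lam) ≤ L :=
    le_trans (le_mul_of_one_le_left hcC0.le (by linarith)) hKcC
  refine ⟨τ / Real.log lam, hhpos, hhalf, by linarith, ?_, ?_⟩
  · rw [c1, c2]
    have hll : 0 < Real.log lam / lam := by positivity
    have e1 : 2 * D * T / τ * (Real.log lam / lam) ≤ L * (2 * D * S * (Real.log lam / lam)) := by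
      have e11 : 2 * D * T / τ ≤ L * (2 * D * S) := by
        have : T / τ ≤ L * S := by
          calc T / τ ≤ E / τ := div_le_div_of_nonneg_right hτE hτ0.le
            _ ≤ L := by rw [hL]; linarith
            _ ≤ L * S := le_mul_of_one_le_right (by linarith) hS1
        calc 2 * D * T / τ = 2 * D * (T / τ) := by ring
          _ ≤ 2 * D * (L * S) := mul_le_mul_of_nonneg_left this (by linarith)
          _ = _ := by ring
      calc 2 * D * T / τ * (Real.log lam / lam) ≤ L * (2 * D * S) * (Real.log lam / lam) :=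
            mul_le_mul_of_nonneg_right e11 hll.le
        _ = _ := by ring
    have e2 : T / lam ≤ L * (T / lam) := by
      have : 0 < T / lam := by positivity
      exact le_mul_of_one_le_left this.le hL1
    have e3 : 0 < L * (2 * D * T' / lam) := by positivity
    calc 2 * D * T / τ * (Real.log lam / lam) + T / lam
        ≤ L * (2 * D * S * (Real.log lam / lam)) + L * (T / lam) := add_le_add e1 e2
      _ ≤ _ := by
          have : L * (2 * D * T' / lam + 2 * D * S * (Real.log lam / lam) + T / lam) =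
            L * (2 * D * T' / lam) + L * (2 * D * S * (Real.log lam / lam)) + L * (T / lam) := by ring
          rw [this]; linarith
  · have hexp : Real.exp (2 * (Real.log (q / q1) / 2)) = q / q1 := by
      rw [show 2 * (Real.log (q / q1) / 2) = Real.log (q / q1) by ring,
        Real.exp_log (div_pos (by linarith) hq1p)]
    rw [hexp]
    have hLM : L / M1 = ε1 := by
      rw [hM1]
      have : L ≠ 0 := by linarith
      field_simp
    rw [hLM]
    have hmain : K * (cM D lam (τ / Real.log lam) * (1 + ε1) +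
        2 * M1 * (dl * lam) ^ (-(1 - τ / Real.log lam))) + 2 * L * K ^ 2 *
        (k1 D lam (τ / Real.log lam) + k2 D lam (τ / Real.log lam)) ≤ q1 := by
      have f1 : K * cM D lam (τ / Real.log lam) = 2 * D * T' * b + 2 * D * S * a + T * b := by
        rw [c2, ha, hb]; ring
      have f2 : K ^ 2 * k1 D lam (τ / Real.log lam) =
          2 * (4 * D + 1) * (4 * D * b + 2 * D * a * (1 / τ)) * b := by
        rw [c3, ha, hb]; field_simp
      have f3 : K ^ 2 * k2 D lam (τ / Real.log lam) =
          2 * D * b * cC D lam (τ / Real.log lam) * b := by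
        rw [k2, hb]; field_simp
      have f4 : 2 * D * T' * b ≤ 2 * D * b := by
        have : 0 < D * b := by positivity
        linarith [mul_le_of_le_one_right this.le hTn1]
      have f5 : 2 * D * S * a ≤ q0 + δ := by
        have : D * a * S ≤ D * a * (2 * E) := mul_le_mul_of_nonneg_left hS3 hDa0.le
        linarith
      have f6 : T * b ≤ E * b := mul_le_mul_of_nonneg_right hτE hb0.le
      have f7 : 2 * (4 * D + 1) * (4 * D * b + 2 * D * a * (1 / τ)) * b ≤
          2 * (4 * D + 1) * (4 * D + 1 / τ) * b := by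
        have g1 : 4 * D * b + 2 * D * a * (1 / τ) ≤ 4 * D + 1 / τ := by
          have : 2 * D * a * (1 / τ) ≤ 1 * (1 / τ) :=
            mul_le_mul_of_nonneg_right ha2 (by positivity)
          have h4 : 4 * D * b ≤ 4 * D := mul_le_of_le_one_right (by positivity) hb1
          linarith
        exact mul_le_mul_of_nonneg_right (mul_le_mul_of_nonneg_left g1 (by positivity)) hb0.le
      have f8 : 2 * D * b * cC D lam (τ / Real.log lam) * b ≤ 2 * D * L * b := by
        have g1 : 2 * D * b * cC D lam (τ / Real.log lam) ≤ 2 * D * 1 * L :=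
          mul_le_mul (mul_le_mul_of_nonneg_left hb1 (by positivity)) hcCL hcC0.le (by positivity)
        calc 2 * D * b * cC D lam (τ / Real.log lam) * b ≤ 2 * D * 1 * L * b :=
              mul_le_mul_of_nonneg_right g1 hb0.le
          _ = _ := by ring
      have f9 : 2 * L * K ^ 2 * (k1 D lam (τ / Real.log lam) + k2 D lam (τ / Real.log lam)) ≤
          2 * L * (2 * (4 * D + 1) * (4 * D + 1 / τ) * b + 2 * D * L * b) := by
        have : 2 * L * K ^ 2 * (k1 D lam (τ / Real.log lam) + k2 D lam (τ / Real.log lam)) =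
            2 * L * (K ^ 2 * k1 D lam (τ / Real.log lam) + K ^ 2 * k2 D lam (τ / Real.log lam)) := by
          ring
        rw [this, f2, f3]
        exact mul_le_mul_of_nonneg_left (add_le_add f7 f8) (by linarith)
      have f10 : M * b ≤ M * δ := mul_le_mul_of_nonneg_left g2 hMp.le
      have f11 : M * b = 2 * D * b + E * b +
          2 * L * (2 * (4 * D + 1) * (4 * D + 1 / τ) * b + 2 * D * L * b) +
          2 * M1 * E * Δ * b := by rw [hM]; ring
      have f12 : K * (2 * M1 * (dl * lam) ^ (-(1 - τ / Real.log lam))) ≤ 2 * M1 * E * Δ * b := by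
        have g1 : K * (2 * M1 * (dl * lam) ^ (-(1 - τ / Real.log lam))) ≤
            K * (2 * M1 * (Δ * (T / lam))) := by
          apply mul_le_mul_of_nonneg_left _ hK0'.le
          exact mul_le_mul_of_nonneg_left hoff (by positivity)
        have g2 : K * (2 * M1 * (Δ * (T / lam))) = 2 * M1 * Δ * b * T := by
          rw [hb]; ring
        have g3 : 2 * M1 * Δ * b * T ≤ 2 * M1 * Δ * b * E :=
          mul_le_mul_of_nonneg_left hτE (by positivity)
        linarith
      have f13 : 0 ≤ L * (2 * (4 * D + 1) * (4 * D + 1 / τ) * b + 2 * D * L * b) := by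
        positivity
      have f14 : 0 ≤ M1 * E * Δ * b := by positivity
      have f15 : K * cM D lam (τ / Real.log lam) ≤ 1 := by
        rw [f1]; linarith
      have f16 : K * cM D lam (τ / Real.log lam) * ε1 ≤ ε1 :=
        mul_le_of_le_one_left hε10.le f15
      have f17 : K * (cM D lam (τ / Real.log lam) * (1 + ε1) +
          2 * M1 * (dl * lam) ^ (-(1 - τ / Real.log lam))) =
          K * cM D lam (τ / Real.log lam) + K * cM D lam (τ / Real.log lam) * ε1 +
          K * (2 * M1 * (dl * lam) ^ (-(1 - τ / Real.log lam))) := by ring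
      rw [f17, hq1]
      rw [f1] at f16 ⊢
      linarith
    calc q / q1 * (K * (cM D lam (τ / Real.log lam) * (1 + ε1) +
        2 * M1 * (dl * lam) ^ (-(1 - τ / Real.log lam))) + 2 * L * K ^ 2 *
        (k1 D lam (τ / Real.log lam) + k2 D lam (τ / Real.log lam))) ≤ q / q1 * q1 :=
          mul_le_mul_of_nonneg_left hmain (by positivity)
      _ = q := by field_simp

end Pool.Agent.H740.SH
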